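import Pool.Agent.NH45.OS7

/-!
# One dominated state: the first two coefficients, and nontriviality for knots

Diagrams (starting library): `Pool.Agent.H891R2.Jones.Diagram` (`Diagram P`: oriented diagrams; `fPoly`: the normalised
bracket `(-A^{-3})^{w(D)} ⟨D⟩`; `IsClosed`: the pieces fit together to closed oriented curves),
`Pool.Agent.TH561.PK.Defs` (`IsKnot`: one component), `Pool.Agent.H891R2.MT.Defs` (`Ribbon k`: ribbon graph with `k`
edges; `Γ.link n`; `Orients D U`: `D` is the unoriented diagram `U` with directions).  `Γ.link (sg R)` for a planar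
`Γ` is the general connected link diagram with `k` crossings and Tait graph `Γ`: the crossings are the edges, `R` is
the set of the crossings of the one kind (`Pool.Agent.H891R2.DS.Defs`).

States (`Pool.Agent.H891R2.DS.Defs`): a state is a set `S` of edges (the bands `e ∈ S` are kept, the others are cut);
`stateGraph Γ S` is its state graph (vertices: the circles of the state; edges: all crossings), `Asm R S` the set of the
crossings at which the state has the smoothing of type `A`, `EvenSet G X`: `X` is an edge-disjoint union of cycles.
`Pool.Agent.H891R2.DS.Final`: `Nugatory Γ e`.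

New definitions.  `Dom3 G M` (`Pool.Agent.NH45.OS1`): every cycle (nonempty even subgraph) `X` of `G` satisfies
`|X ∩ M| + 2 ≤ |X \ M|`, and `|X ∩ M| + 3 ≤ |X \ M|` if it contains an edge of `M`.  (For `M = ∅`: the graph has no
loops, so that `Dom3 (stateGraph Γ S) ∅` says that the diagram is semiadequate.)  `betti G` (`Pool.Agent.NH45.OS7`): the
number of classes of parallel edges (`Set.range (ends G)`: unordered pairs of vertices which are joined by an edge),
minus the number of vertices, plus `1`: the first Betti number of the reduced state graph.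
-/

set_option autoImplicit false

namespace Pool.Agent.Results.MP_42db45_gt.OneSidedDominated

open LaurentPolynomial Pool.Agent.H891R2.Jones Pool.Agent.H891R2.MT Pool.Agent.H891R2.DS Pool.Agent.NH45.OS
open Pool.Agent.TH561.PK (IsKnot)

/-- Let `Γ.link (sg R)` be a connected link diagram with at least one crossing and let `S` be a state of it.

* If all cycles `X` of the state graph of `S` contain at least `2` more crossings with the `B`-smoothing than with the
  `A`-smoothing, and at least `3` more if they contain an `A`-smoothed crossing, then the lowest coefficient of `f` is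
  `± 1`, and the next one (`4` degrees higher) has the absolute value `betti (stateGraph Γ S)`.
* The same with the types `A` and `B` exchanged for the highest coefficients.
* If one of the two conditions holds, the diagram is a knot diagram, and at least one crossing is not nugatory, then
  `f ≠ 1`. -/
theorem result (k : ℕ) (hk : 0 < k) (Γ : Ribbon k) (hΓ : Γ.Planar) (R S : Finset (Fin k))
    (D : Diagram (Ribbon.Pt (sg R))) (hD : Orients D (Γ.link (sg R))) :
    (Dom3 (stateGraph Γ S) (Asm R S) → ∃ m : ℤ, (∀ j, D.fPoly.coeff j ≠ 0 → m ≤ j) ∧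
      |D.fPoly.coeff m| = 1 ∧ |D.fPoly.coeff (m + 4)| = betti (stateGraph Γ S)) ∧
    (Dom3 (stateGraph Γ S) (Asm R S)ᶜ → ∃ m : ℤ, (∀ j, D.fPoly.coeff j ≠ 0 → j ≤ m) ∧
      |D.fPoly.coeff m| = 1 ∧ |D.fPoly.coeff (m - 4)| = betti (stateGraph Γ S)) ∧
    (Dom3 (stateGraph Γ S) (Asm R S) ∨ Dom3 (stateGraph Γ S) (Asm R S)ᶜ →
      D.IsClosed → IsKnot D → (∃ e, ¬ Nugatory Γ e) → D.fPoly ≠ 1) := by
  refine ⟨fun h => ⟨_, low Γ hΓ hk R S h D hD _ rfl⟩, fun h => ⟨_, high Γ hΓ hk R S h D hD _ rfl⟩, ?_⟩
  rintro (h | h) hcl hkn hne
  · exact knot_low Γ hΓ hk R S h D hD hcl hkn hne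
  · exact knot_high Γ hΓ hk R S h D hD hcl hkn hne

end Pool.Agent.Results.MP_42db45_gt.OneSidedDominated
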