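import Pool.Agent.NH45.Petal.Fin

/-!
# The Jones polynomials of random petal diagrams (the Petaluma model)

Diagrams (starting library): `Pool.Agent.H891R2.Jones.Diagram` (`Diagram P`: oriented link diagrams with
marked points `P`; `Diagram.IsClosed`; `Diagram.fPoly`: the normalised Kauffman bracket, a Laurent
polynomial in `A = T 1`), `Pool.Agent.TH561.PK.Defs` (`IsKnot D`: all marked points are on one curve),
`Pool.Agent.H832R3.VJ.Defs` (`Dia`, `Dia.IsLink`: nonempty oriented link diagrams; `Move X Y`: relabelling,
new marked points, the three Reidemeister moves), `Pool.Agent.R811.Cross.Defs` (`Shadow n`: the shadow of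
an oriented knot diagram with `n` crossings; `G.diagram s`: the diagram with the shadow `G` in which the
crossing `c` is positive if `s c = true` and negative if `s c = false`).

`Pool.Agent.NH45.Petal.Star`: `star k`: the star diagram with `n = 2 k + 3` straight segments, each of which
crosses all the others except for its two neighbours; `petal k π`, `π` a permutation of the `n` numbers
`0, …, n - 1`: the knot diagram obtained by putting the segment number `i` at the height `π i`.  This is the
knot with the petal diagram with `n` petals and petal permutation `π`; every knot has such a diagram for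
some `n`.  In the Petaluma model of random knots (Even-Zohar, Hass, Linial, Nowik) `π` is a uniformly
distributed random permutation.

`Same X Y`: the diagrams `X` and `Y` can be transformed into each other by moves, that is, they represent
the same oriented link.

Proof.  (1) Exchanging two neighbouring heights changes one crossing.  The second differences of the second
moment `F` of `f` (the second derivative at `A = 1`) under crossing changes are exactly `-96` for interlaced
crossings and `0` for the other ones (`f(1) = (-2)^(c-1)` and, for knots, `f'(1) = 0`).  (2) Let `t` run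
through the middle segments `2 t`, `2 t + 1`.  If the heights of `2 t` and `2 t + 1` are the neighbours of the
heights of a late and of an early segment, respectively, then exchanging these heights gives two bits
`y_t`, `x_t`, and for any `r` such `t` the function `F` is `A(x) + B(y) - 96 ∑_{s ≤ t} ± x_t y_s`.
(3) By the Cauchy–Schwarz inequality the square of the Fourier coefficient of `F` at `θ` is at most
the mean of a product of cosines along a lazy random walk, which is at most `e^{-c r |θ|}`; summing over the
multiples `θ` of `1 / M`, `M ≤ r`, every residue class modulo `M` has probability at most `158 / M`.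
(4) The number of these `t` has mean `≥ c n`, and its variance is at most `64 n`, because it changes by at
most `4` if two heights are exchanged.
-/

set_option autoImplicit false

namespace Pool.Agent.Results.MP_42db45_gt.PetalDiagrams

open Finset LaurentPolynomial Pool.Agent.H891R2.Jones Pool.Agent.H832R3.VJ Pool.Agent.R811.Cross
  Pool.Agent.NH45.Petal

/-- the diagrams `X` and `Y` represent the same oriented link -/
def Same (X Y : Dia) : Prop := Relation.EqvGen (fun X Y => X.IsLink ∧ Y.IsLink ∧ Move X Y) X Y

theorem same_fPoly {X Y : Dia} (h : Same X Y) : X.D.fPoly = Y.D.fPoly := by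
  induction h with
  | rel X Y h => exact fPoly_move X Y h.1 h.2.1 h.2.2
  | refl X => rfl
  | symm X Y _ ih => exact ih.symm
  | trans X Y Z _ _ h1 h2 => exact h1.trans h2

open Classical in
/-- Let `n = 2 k + 3 ≥ 5`.  The diagrams `petal k π` of the `n!` permutations `π` are closed oriented
diagrams of knots, and:

* for every Laurent polynomial `g`, for instance `g = 1`, the proportion of the permutations `π` for which
  the `f`-polynomial of `petal k π` is `g`, or only agrees with `g` up to terms of order `3` at `A = 1`, is at
  most `2100000 / n`;
* for every oriented link `X` the proportion of the permutations `π` such that `petal k π` represents `X` is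
  at most `2100000 / n`. -/
theorem result (k : ℕ) (_hk : 0 < k) :
    (∀ π, (petal k π).IsClosed ∧ Pool.Agent.TH561.PK.IsKnot (petal k π)) ∧
    (∀ g : ℤ[T;T⁻¹],
      (2 * k + 3) * #{π : Equiv.Perm (Fin (2 * k + 3)) |
        (T 1 - 1 : ℤ[T;T⁻¹]) ^ 3 ∣ (petal k π).fPoly - g} ≤ 2100000 * (2 * k + 3).factorial ∧
      (2 * k + 3) * #{π : Equiv.Perm (Fin (2 * k + 3)) | (petal k π).fPoly = g} ≤
        2100000 * (2 * k + 3).factorial) ∧
    ∀ X : Dia, (2 * k + 3) * #{π : Equiv.Perm (Fin (2 * k + 3)) | Same ⟨_, inferInstance, petal k π⟩ X} ≤
      2100000 * (2 * k + 3).factorial := by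
  have h1 : ∀ g : ℤ[T;T⁻¹], (2 * k + 3) * #{π : Equiv.Perm (Fin (2 * k + 3)) |
        (T 1 - 1 : ℤ[T;T⁻¹]) ^ 3 ∣ (petal k π).fPoly - g} ≤ 2100000 * (2 * k + 3).factorial :=
    fun g => main g
  have h2 : ∀ g : ℤ[T;T⁻¹], (2 * k + 3) * #{π : Equiv.Perm (Fin (2 * k + 3)) |
      (petal k π).fPoly = g} ≤ 2100000 * (2 * k + 3).factorial := by
    intro g
    refine le_trans (Nat.mul_le_mul_left _ (Finset.card_le_card ?_)) (h1 g)
    intro π hπ
    rw [Finset.mem_filter] at hπ ⊢
    exact ⟨hπ.1, by rw [hπ.2, sub_self]; exact dvd_zero _⟩
  refine ⟨fun π => ⟨petal_closed k π, petal_knot k π⟩, fun g => ⟨h1 g, h2 g⟩, fun X => ?_⟩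
  refine le_trans (Nat.mul_le_mul_left _ (Finset.card_le_card ?_)) (h2 X.D.fPoly)
  intro π hπ
  rw [Finset.mem_filter] at hπ ⊢
  have h3 : (⟨_, inferInstance, petal k π⟩ : Dia).D.fPoly = X.D.fPoly := same_fPoly hπ.2
  exact ⟨hπ.1, h3⟩

end Pool.Agent.Results.MP_42db45_gt.PetalDiagrams
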