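import Pool.Agent.NH45.Petal.M12
import Pool.Agent.NH45.Petal.Fin

/-!
# The Jones polynomials of random petal diagrams: superpolynomial decay

Diagrams (starting library): `Pool.Agent.H891R2.Jones.Diagram` (`Diagram P`: oriented link diagrams with
marked points `P`; `Diagram.IsClosed`; `Diagram.fPoly`: the normalised Kauffman bracket, a Laurent
polynomial in `A = T 1`), `Pool.Agent.TH561.PK.Defs` (`IsKnot D`: all marked points are on one curve),
`Pool.Agent.H832R3.VJ.Defs` (`Dia`, `Dia.IsLink`: nonempty oriented link diagrams; `Move X Y`: relabelling,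
new marked points, the three Reidemeister moves), `Pool.Agent.R811.Cross.Defs` (`Shadow n`: the shadow of
an oriented knot diagram with `n` crossings; `G.diagram s`: the diagram with the shadow `G` in which the
crossing `c` is positive if `s c = true` and negative if `s c = false`).

`Pool.Agent.NH45.Petal.Star`: `star k`: the star diagram with `n = 2 k + 3` straight segments, each of which
crosses all the others except for its two neighbours; `petal k π`, `π` a permutation of the `n` numbers
`0, …, n - 1`: the knot diagram obtained by putting the segment number `i` at the height `π i`.  This is the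
knot with the petal diagram with `n` petals and petal permutation `π`; every knot has such a diagram for
some `n`.  In the Petaluma model of random knots (Even-Zohar, Hass, Linial, Nowik) `π` is a uniformly
distributed random permutation.

`Same X Y`: the diagrams `X` and `Y` can be transformed into each other by moves, that is, they represent
the same oriented link.

Proof.  Let `F_t` be the `t`-th derivative of `f` in `log A` at `A = 1` (`moment t f`), a finite type
invariant of the order `t`.
(1) Files `M1`, `M2`, `M3`.  The mixed `t`-th difference of `F_t` at `t` crossings only depends on the chord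
diagram of these crossings on the curve.  Let `c_1, …, c_t` be a chain, that is, `c_i` and `c_j` are not
interlaced if `|i - j| > 1`, and `c_i` and `c_{i+1}` are interlaced if and only if the bit `e_i` is `1`.
Then the difference is `2 (-4) ^ (t - 1) t! ω(e_1, …, e_{t-1})`, and the alternating sum of `ω` over all
the values of the bits is `6 · 2 ^ (t - 2)`.
(2) Files `M7`, `M8`.  Cut the segments into `m + 1` groups of `2 q + 1` blocks.  With probability at least
`1 - m q (q + 1) (3 / 5) ^ q`, for any blocks of two consecutive groups there are many pairs of heights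
`2 j`, `2 j + 1` which belong to a segment of the one and a segment of the other block.  The exchange of these
heights changes one crossing (the bit `x_j`), and crossings of this kind form chains, in which every value
of the bits `e_i` occurs, depending on the blocks.
(3) Files `M4`, `M5`, `M6`, `M11`.  The mean over `x` of `exp (2 π i (θ_2 F_2 + … + θ_m F_m))`, where
`θ_t = τ_t / Q ^ t` with a prime number `Q > m`, `0 ≤ τ_t < Q ^ t`, not all `0`, is estimated by repeated
applications of the Cauchy–Schwarz inequality, one for each link of the chain; its `2 ^ t`-th power is at most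
`t (3 / 5) ^ q`.  By the orthogonality of the characters every residue class of
`(F_2 mod Q ^ 2, …, F_m mod Q ^ m)` has the probability at most `2 Q ^ (-(2 + … + m))`.
(4) Files `M9`, `M10`, `M12`.  One can take `Q ≥ q ^ 2 / (400 (m + 1))` if `q ^ 6 ≤ n` and `q` is large with
respect to `m`; the choice `q = 4 ^ m`, `4096 ^ m ≤ n`, gives the probability `≤ 3 · 2 ^ (- m ^ 3)`.
-/

set_option autoImplicit false

namespace Pool.Agent.Results.MP_42db45_gt.PetalLogCube

open Finset LaurentPolynomial Pool.Agent.H891R2.Jones Pool.Agent.H832R3.VJ Pool.Agent.R811.Cross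
  Pool.Agent.NH45.Petal

/-- the diagrams `X` and `Y` represent the same oriented link -/
def Same (X Y : Dia) : Prop := Relation.EqvGen (fun X Y => X.IsLink ∧ Y.IsLink ∧ Move X Y) X Y

theorem same_fPoly {X Y : Dia} (h : Same X Y) : X.D.fPoly = Y.D.fPoly := by
  induction h with
  | rel X Y h => exact fPoly_move X Y h.1 h.2.1 h.2.2
  | refl X => rfl
  | symm X Y _ ih => exact ih.symm
  | trans X Y Z _ _ h1 h2 => exact h1.trans h2

theorem moment_eq {f g : ℤ[T;T⁻¹]} {m i : ℕ} (h : (T 1 - 1 : ℤ[T;T⁻¹]) ^ (m + 1) ∣ f - g) (hi : i ≤ m) :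
    moment i f = moment i g := by
  have h1 := moment_of_dvd i (f - g) ((pow_dvd_pow _ (by omega)).trans h)
  rw [m_sub] at h1
  omega

open Classical in
/-- Let `n = 2 k + 3 ≥ 5`.  The diagrams `petal k π` of the `n!` permutations `π` are closed oriented
diagrams of knots, and:

* for every Laurent polynomial `g`, for instance `g = 1`, the proportion of the permutations `π` for which
  the `f`-polynomial of `petal k π` is `g`, or only agrees with `g` up to terms of order `L + 1` at `A = 1`,
  where `4096 ^ L ≤ n < 4096 ^ (L + 1)`, is at most `exp (3400 - (log n) ^ 3 / 1000)`;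
* for every oriented link `X` the proportion of the permutations `π` such that `petal k π` represents `X` is
  at most `exp (3400 - (log n) ^ 3 / 1000)`. -/
theorem result (k : ℕ) (_hk : 0 < k) :
    (∀ π, (petal k π).IsClosed ∧ Pool.Agent.TH561.PK.IsKnot (petal k π)) ∧
    (∀ g : ℤ[T;T⁻¹],
      (#{π : Equiv.Perm (Fin (2 * k + 3)) |
        (T 1 - 1 : ℤ[T;T⁻¹]) ^ (Nat.log 4096 (2 * k + 3) + 1) ∣ (petal k π).fPoly - g} : ℝ) ≤
        Real.exp (3400 - Real.log (2 * k + 3 : ℕ) ^ 3 / 1000) * (2 * k + 3).factorial ∧
      (#{π : Equiv.Perm (Fin (2 * k + 3)) | (petal k π).fPoly = g} : ℝ) ≤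
        Real.exp (3400 - Real.log (2 * k + 3 : ℕ) ^ 3 / 1000) * (2 * k + 3).factorial) ∧
    ∀ X : Dia, (#{π : Equiv.Perm (Fin (2 * k + 3)) | Same ⟨_, inferInstance, petal k π⟩ X} : ℝ) ≤
      Real.exp (3400 - Real.log (2 * k + 3 : ℕ) ^ 3 / 1000) * (2 * k + 3).factorial := by
  have h1 : ∀ g : ℤ[T;T⁻¹], (#{π : Equiv.Perm (Fin (2 * k + 3)) |
        (T 1 - 1 : ℤ[T;T⁻¹]) ^ (Nat.log 4096 (2 * k + 3) + 1) ∣ (petal k π).fPoly - g} : ℝ) ≤
        Real.exp (3400 - Real.log (2 * k + 3 : ℕ) ^ 3 / 1000) * (2 * k + 3).factorial := by
    intro g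
    refine le_trans ?_ (log_cube k (fun i => moment i g))
    have := Finset.card_le_card (s := Finset.univ.filter (fun π : Equiv.Perm (Fin (2 * k + 3)) =>
        (T 1 - 1 : ℤ[T;T⁻¹]) ^ (Nat.log 4096 (2 * k + 3) + 1) ∣ (petal k π).fPoly - g))
      (t := Finset.univ.filter (fun π : Equiv.Perm (Fin (2 * k + 3)) =>
        ∀ i : ℕ, 2 ≤ i → i ≤ Nat.log 4096 (2 * k + 3) →
          Fm (star k) i (sgn π) = (fun i => moment i g) i)) (by
        intro π hπ
        rw [Finset.mem_filter] at hπ ⊢
        exact ⟨hπ.1, fun i _ hi => moment_eq hπ.2 hi⟩)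
    convert (Nat.cast_le (α := ℝ)).2 this
  have h2 : ∀ g : ℤ[T;T⁻¹], (#{π : Equiv.Perm (Fin (2 * k + 3)) | (petal k π).fPoly = g} : ℝ) ≤
        Real.exp (3400 - Real.log (2 * k + 3 : ℕ) ^ 3 / 1000) * (2 * k + 3).factorial := by
    intro g
    refine le_trans ((Nat.cast_le (α := ℝ)).2 (Finset.card_le_card ?_)) (h1 g)
    intro π hπ
    rw [Finset.mem_filter] at hπ ⊢
    exact ⟨hπ.1, by rw [hπ.2, sub_self]; exact dvd_zero _⟩
  refine ⟨fun π => ⟨petal_closed k π, petal_knot k π⟩, fun g => ⟨h1 g, h2 g⟩, fun X => ?_⟩
  refine le_trans ((Nat.cast_le (α := ℝ)).2 (Finset.card_le_card ?_)) (h2 X.D.fPoly)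
  intro π hπ
  rw [Finset.mem_filter] at hπ ⊢
  have h3 : (⟨_, inferInstance, petal k π⟩ : Dia).D.fPoly = X.D.fPoly := same_fPoly hπ.2
  exact ⟨hπ.1, h3⟩

end Pool.Agent.Results.MP_42db45_gt.PetalLogCube
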