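import Pool.Agent.NH45.Unif

/-!
# A uniform bound for the exceptional set of a twist family

Diagrams (starting library): `Pool.Agent.H891R2.Jones.Diagram` (`Diagram P`: oriented diagrams; `fPoly`: the normalised
bracket `(-A^{-3})^{w(D)} ⟨D⟩`), `Pool.Agent.H891R2.MT.Defs` (`UDiagram`: unoriented diagrams; `Orients D U`: `D` is
`U` with directions; `nS w S = ∑ e ∈ S, w e`), `Pool.Agent.H891R2.SI.Defs` (`Sites k`: a diagram `O`, planar or not,
connected or not, with `k` open boxes (sites); `O.fill w`, `w ∈ ℤ^k`: the site `e` is filled with two strands twisted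
around each other, a row of `|w e|` crossings of the kind given by the sign of `w e`), `Pool.Agent.H891R2.ZO.Main`
(`IsPow u`: `u = ± A ^ n`).

New definition (`Pool.Agent.NH45.Unif`): `Cl b P` is the set of the `w ∈ ℤ^k` with `w ≡ b` modulo `2` and
`w(S) - w(S') = b(S) - b(S')` for all pairs `(S, S') ∈ P` of sets of sites (a coset of a subgroup of `ℤ^k`).

Proof.  The condition is an exponential equation `∑ C_i A^{λ_i(a)} = 0` with `2^k + 1` terms in
`a = (v, n) ∈ ℤ^k × ℤ`, `w = p + 2 v`, where the Laurent polynomials `C_i` depend on the diagram in an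
uncontrolled way.  If `a_1, …, a_N` are `N` solutions, then `det (A^{λ_i(a_j)}) = 0`, so that two of the `N!`
exponents `∑ λ_{σ j}(a_j)` are equal.  Choosing the solutions `a_j` one after the other one sees that all
solutions lie in at most `N!` cosets of kernels of differences `λ_i - λ_j`; on such a coset the equation has one
term less.
-/

set_option autoImplicit false

namespace Pool.Agent.Results.MP_42db45_gt.UniformTwistBound

open LaurentPolynomial Pool.Agent.H891R2.Jones Pool.Agent.H891R2.MT Pool.Agent.H891R2.SI Pool.Agent.NH45.Unif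
open Pool.Agent.H891R2.ZO (IsPow)

/-- **Uniform bound.**  Let `k ≥ 1` and `N(k) = 2^(k+1) (2^k + 1)! (2^k)! ⋯ 2! 1!`.  For every diagram `O` with `k`
twist sites (with any number of crossings, marked points and components outside of the sites) and for every Laurent
polynomial `g`, for instance `g = 1`:

* the set of all `w ∈ ℤ^k` for which the diagram `O.fill w` has, for some (hence for all) directions, the
  normalised bracket `g` up to a unit `± A^n`, is the union of at most `N(k)` sets of the form `Cl b P`;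
* hence it is finite with at most `N(k)` elements, or it contains a line `b + ℤ v`, `v ≠ 0`.

(For knots `f = ± A^n` means `f = 1`.) -/
theorem result (k : ℕ) (hk : 0 < k) (O : Sites k) (g : ℤ[T;T⁻¹]) :
    (∃ F : Finset ((Fin k → ℤ) × Finset (Finset (Fin k) × Finset (Fin k))),
      F.card ≤ 2 ^ (k + 1) * (2 ^ k + 1).superFactorial ∧
      {w : Fin k → ℤ | ∃ D : Diagram (O.P ⊕ Ribbon.Pt w), Orients D (O.fill w) ∧
        ∃ u, IsPow u ∧ D.fPoly = u * g} = ⋃ p ∈ F, Cl p.1 p.2) ∧
    (({w : Fin k → ℤ | ∃ D : Diagram (O.P ⊕ Ribbon.Pt w), Orients D (O.fill w) ∧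
        ∃ u, IsPow u ∧ D.fPoly = u * g}.Finite ∧
      {w : Fin k → ℤ | ∃ D : Diagram (O.P ⊕ Ribbon.Pt w), Orients D (O.fill w) ∧
        ∃ u, IsPow u ∧ D.fPoly = u * g}.ncard ≤ 2 ^ (k + 1) * (2 ^ k + 1).superFactorial) ∨
      ∃ b v : Fin k → ℤ, v ≠ 0 ∧ ∀ t : ℤ, ∃ D : Diagram (O.P ⊕ Ribbon.Pt (b + t • v)),
        Orients D (O.fill (b + t • v)) ∧ ∃ u, IsPow u ∧ D.fPoly = u * g) :=
  ⟨main hk O g, finite_or_line hk O g⟩

end Pool.Agent.Results.MP_42db45_gt.UniformTwistBound
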